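import Mathlib

/-!
Tilings by triangles: separation by lines, unions, affine transport (helper119).
-/

namespace Q119.TL

open Set

section gen

variable {E F : Type*} [AddCommGroup E] [Module ℝ E] [AddCommGroup F] [Module ℝ F]

/-- the closed triangle with vertices `A`, `B`, `C` -/
def tri (A B C : E) : Set E := convexHull ℝ {A, B, C}

/-- two sets separated by a line -/
def Sep (S T : Set E) : Prop :=
  ∃ (f : E →ₗ[ℝ] ℝ) (κ : ℝ), f ≠ 0 ∧ (∀ x ∈ S, f x ≤ κ) ∧ ∀ x ∈ T, κ ≤ f x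

lemma Sep.symm {S T : Set E} (h : Sep S T) : Sep T S := by
  obtain ⟨f, κ, hf, h1, h2⟩ := h
  refine ⟨-f, -κ, by simpa using hf, ?_, ?_⟩
  · intro x hx
    simpa using h2 x hx
  · intro x hx
    simpa using h1 x hx

lemma Sep.mono {S T S' T' : Set E} (h : Sep S T) (hS : S' ⊆ S) (hT : T' ⊆ T) : Sep S' T' := by
  obtain ⟨f, κ, hf, h1, h2⟩ := h
  exact ⟨f, κ, hf, fun x hx => h1 x (hS hx), fun x hx => h2 x (hT hx)⟩

/-- `R` is the union of `N` triangles, all copies in the sense of `cp`, pairwise separated by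
lines -/
def TR (cp : E → E → E → Prop) (R : Set E) (N : ℕ) : Prop :=
  ∃ (ι : Type) (_ : Fintype ι) (A B C : ι → E), Fintype.card ι = N ∧
    (∀ i, cp (A i) (B i) (C i)) ∧ (⋃ i, tri (A i) (B i) (C i)) = R ∧
    ∀ i j, i ≠ j → Sep (tri (A i) (B i) (C i)) (tri (A j) (B j) (C j))

lemma TR.single {cp : E → E → E → Prop} {A B C : E} (h : cp A B C) : TR cp (tri A B C) 1 := by
  refine ⟨Unit, inferInstance, fun _ => A, fun _ => B, fun _ => C, by simp, fun _ => h, ?_, ?_⟩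
  · exact iUnion_const _
  · intro i j hij
    exact absurd (Subsingleton.elim i j) hij

lemma TR.union {cp : E → E → E → Prop} {R S : Set E} {M N : ℕ} (hR : TR cp R M)
    (hS : TR cp S N) (hRS : Sep R S) : TR cp (R ∪ S) (M + N) := by
  obtain ⟨ι, i1, A, B, C, hc, hcp, hU, hsep⟩ := hR
  obtain ⟨κ, i2, A', B', C', hc', hcp', hU', hsep'⟩ := hS
  refine ⟨ι ⊕ κ, inferInstance, Sum.elim A A', Sum.elim B B', Sum.elim C C', by simp [hc, hc'],
    ?_, ?_, ?_⟩
  · rintro (i | i)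
    · exact hcp i
    · exact hcp' i
  · rw [← hU, ← hU']; ext x; simp [Sum.exists]
  · have sub : ∀ i, tri (A i) (B i) (C i) ⊆ R := fun i => by
      rw [← hU]; exact subset_iUnion (fun i => tri (A i) (B i) (C i)) i
    have sub' : ∀ i, tri (A' i) (B' i) (C' i) ⊆ S := fun i => by
      rw [← hU']; exact subset_iUnion (fun i => tri (A' i) (B' i) (C' i)) i
    rintro (i | i) (j | j) hij
    · exact hsep i j (fun h => hij (by rw [h]))
    · exact hRS.mono (sub i) (sub' j)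
    · exact (hRS.mono (sub j) (sub' i)).symm
    · exact hsep' i j (fun h => hij (by rw [h]))

lemma TR.union3 {cp : E → E → E → Prop} {R S T : Set E} {M N K : ℕ} (hR : TR cp R M)
    (hS : TR cp S N) (hT : TR cp T K) (hRS : Sep R S) (hRT : Sep R T) (hST : Sep S T) :
    TR cp (R ∪ S ∪ T) (M + N + K) := by
  obtain ⟨ι, i1, A, B, C, hc, hcp, hU, hsep⟩ := hR
  obtain ⟨κ, i2, A', B', C', hc', hcp', hU', hsep'⟩ := hS
  obtain ⟨μ, i3, A₃, B₃, C₃, hc₃, hcp₃, hU₃, hsep₃⟩ := hT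
  refine ⟨(ι ⊕ κ) ⊕ μ, inferInstance, Sum.elim (Sum.elim A A') A₃, Sum.elim (Sum.elim B B') B₃,
    Sum.elim (Sum.elim C C') C₃, by simp [hc, hc', hc₃], ?_, ?_, ?_⟩
  · rintro ((i | i) | i)
    · exact hcp i
    · exact hcp' i
    · exact hcp₃ i
  · rw [← hU, ← hU', ← hU₃]; ext x; simp [Sum.exists]
  · have sub : ∀ i, tri (A i) (B i) (C i) ⊆ R := fun i => by
      rw [← hU]; exact subset_iUnion (fun i => tri (A i) (B i) (C i)) i
    have sub' : ∀ i, tri (A' i) (B' i) (C' i) ⊆ S := fun i => by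
      rw [← hU']; exact subset_iUnion (fun i => tri (A' i) (B' i) (C' i)) i
    have sub₃ : ∀ i, tri (A₃ i) (B₃ i) (C₃ i) ⊆ T := fun i => by
      rw [← hU₃]; exact subset_iUnion (fun i => tri (A₃ i) (B₃ i) (C₃ i)) i
    rintro ((i | i) | i) ((j | j) | j) hij
    · exact hsep i j (fun h => hij (by rw [h]))
    · exact hRS.mono (sub i) (sub' j)
    · exact hRT.mono (sub i) (sub₃ j)
    · exact (hRS.mono (sub j) (sub' i)).symm
    · exact hsep' i j (fun h => hij (by rw [h]))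
    · exact hST.mono (sub' i) (sub₃ j)
    · exact (hRT.mono (sub j) (sub₃ i)).symm
    · exact (hST.mono (sub' j) (sub₃ i)).symm
    · exact hsep₃ i j (fun h => hij (by rw [h]))

lemma tri_map (g : E ≃ᵃ[ℝ] F) (A B C : E) : g '' tri A B C = tri (g A) (g B) (g C) := by
  unfold tri
  have := AffineMap.image_convexHull (g : E →ᵃ[ℝ] F) {A, B, C}
  simpa [image_insert_eq] using this

lemma Sep.map {S T : Set E} (h : Sep S T) (g : E ≃ᵃ[ℝ] F) : Sep (g '' S) (g '' T) := by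
  obtain ⟨f, κ, hf, h1, h2⟩ := h
  have key : ∀ x, (f ∘ₗ (g.linear.symm : F →ₗ[ℝ] E)) (g x) =
      f x + (f ∘ₗ (g.linear.symm : F →ₗ[ℝ] E)) (g 0) := by
    intro x
    have : g x = g.linear x + g 0 := by
      have := g.map_vadd 0 x
      simpa using this
    rw [this, map_add]
    simp
  refine ⟨f ∘ₗ (g.linear.symm : F →ₗ[ℝ] E), κ + (f ∘ₗ (g.linear.symm : F →ₗ[ℝ] E)) (g 0),
    ?_, ?_, ?_⟩
  · intro h0
    apply hf
    ext x
    have := congrArg (fun k : F →ₗ[ℝ] ℝ => k (g.linear x)) h0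
    simpa using this
  · rintro _ ⟨x, hx, rfl⟩
    rw [key x]
    have := h1 x hx
    linarith
  · rintro _ ⟨x, hx, rfl⟩
    rw [key x]
    have := h2 x hx
    linarith

lemma TR.map {cp : E → E → E → Prop} {cp' : F → F → F → Prop} {R : Set E} {N : ℕ}
    (h : TR cp R N) (g : E ≃ᵃ[ℝ] F) (hg : ∀ A B C, cp A B C → cp' (g A) (g B) (g C)) :
    TR cp' (g '' R) N := by
  obtain ⟨ι, i1, A, B, C, hc, hcp, hU, hsep⟩ := h
  refine ⟨ι, i1, fun i => g (A i), fun i => g (B i), fun i => g (C i), hc,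
    fun i => hg _ _ _ (hcp i), ?_, ?_⟩
  · rw [← hU, image_iUnion]
    exact iUnion_congr fun i => (tri_map g _ _ _).symm
  · intro i j hij
    have := (hsep i j hij).map g
    rwa [tri_map, tri_map] at this

end gen

end Q119.TL
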