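import Pool.Agent.Q119.TL.Grid

/-!
Frames in the plane with the form `x² + xy + y²` (helper119).
-/

namespace Q119.TL

open Set

/-- squared length of the vector `x + y ω`, `ω = exp(iπ/3)` -/
def nf (p : ℝ × ℝ) : ℝ := p.1 ^ 2 + p.1 * p.2 + p.2 ^ 2

/-- triangle with sides `a, b, c` -/
def cpV (a b c : ℝ) (A B C : ℝ × ℝ) : Prop :=
  nf (B - C) = a ^ 2 ∧ nf (C - A) = b ^ 2 ∧ nf (A - B) = c ^ 2

noncomputable def frameL (u v : ℝ × ℝ) (h : u.1 * v.2 - u.2 * v.1 ≠ 0) :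
    (ℝ × ℝ) ≃ₗ[ℝ] (ℝ × ℝ) where
  toFun p := (p.1 * u.1 + p.2 * v.1, p.1 * u.2 + p.2 * v.2)
  invFun p := ((p.1 * v.2 - p.2 * v.1) / (u.1 * v.2 - u.2 * v.1),
    (u.1 * p.2 - u.2 * p.1) / (u.1 * v.2 - u.2 * v.1))
  map_add' p q := by
    ext <;> simp <;> ring
  map_smul' r p := by
    ext <;> simp <;> ring
  left_inv p := by
    ext
    · simp only
      rw [div_eq_iff h]; ring
    · simp only
      rw [div_eq_iff h]; ring
  right_inv p := by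
    ext
    · simp only
      rw [div_mul_eq_mul_div, div_mul_eq_mul_div, ← add_div, div_eq_iff h]; ring
    · simp only
      rw [div_mul_eq_mul_div, div_mul_eq_mul_div, ← add_div, div_eq_iff h]; ring

noncomputable def frameG (P u v : ℝ × ℝ) (h : u.1 * v.2 - u.2 * v.1 ≠ 0) :
    (ℝ × ℝ) ≃ᵃ[ℝ] (ℝ × ℝ) :=
  (frameL u v h).toAffineEquiv.trans (AffineEquiv.constVAdd ℝ (ℝ × ℝ) P)

lemma frameG_apply (P u v : ℝ × ℝ) (h : u.1 * v.2 - u.2 * v.1 ≠ 0) (p : ℝ × ℝ) :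
    frameG P u v h p = (P.1 + (p.1 * u.1 + p.2 * v.1), P.2 + (p.1 * u.2 + p.2 * v.2)) := by
  rfl

lemma frame_cp {a b c : ℝ} {P u v : ℝ × ℝ} (h : u.1 * v.2 - u.2 * v.1 ≠ 0)
    (hu : nf u = a ^ 2) (hv : nf v = b ^ 2) (huv : nf (u - v) = c ^ 2) (A B C : ℝ × ℝ)
    (hABC : cp0 A B C) : cpV a b c (frameG P u v h A) (frameG P u v h B) (frameG P u v h C) := by
  unfold nf at hu hv huv
  simp only [Prod.fst_sub, Prod.snd_sub] at huv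
  rcases hABC with ⟨rfl, rfl⟩ | ⟨rfl, rfl⟩
  · simp only [frameG_apply, cpV, nf, Prod.fst_sub, Prod.snd_sub]
    refine ⟨?_, ?_, ?_⟩
    · rw [← hu]; ring
    · rw [← hv]; ring
    · rw [← huv]; ring
  · simp only [frameG_apply, cpV, nf, Prod.fst_sub, Prod.snd_sub]
    refine ⟨?_, ?_, ?_⟩
    · rw [← hu]; ring
    · rw [← hv]; ring
    · rw [← huv]; ring

lemma frame_image {P u v : ℝ × ℝ} (h : u.1 * v.2 - u.2 * v.1 ≠ 0) (s t : ℝ → ℝ → ℝ)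
    (hx : ∀ x y, x = P.1 + (s x y * u.1 + t x y * v.1))
    (hy : ∀ x y, y = P.2 + (s x y * u.2 + t x y * v.2)) (Q : ℝ → ℝ → Prop) :
    frameG P u v h '' {p | Q p.1 p.2} = {p | Q (s p.1 p.2) (t p.1 p.2)} := by
  have key : ∀ p : ℝ × ℝ, frameG P u v h (s p.1 p.2, t p.1 p.2) = p := by
    rintro ⟨x, y⟩
    rw [frameG_apply]
    exact Prod.ext (hx x y).symm (hy x y).symm
  ext p
  constructor
  · rintro ⟨q, hq, rfl⟩
    have := (frameG P u v h).injective (key (frameG P u v h q))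
    have h1 : s (frameG P u v h q).1 (frameG P u v h q).2 = q.1 := congrArg Prod.fst this
    have h2 : t (frameG P u v h q).1 (frameG P u v h q).2 = q.2 := congrArg Prod.snd this
    rw [mem_ofPred_eq, h1, h2]
    exact hq
  · intro hp
    exact ⟨(s p.1 p.2, t p.1 p.2), hp, key p⟩

/-- a triangle with sides `k a, k b, k c` -/
lemma frame_tri {a b c : ℝ} (P u v : ℝ × ℝ) (h : u.1 * v.2 - u.2 * v.1 ≠ 0)
    (hu : nf u = a ^ 2) (hv : nf v = b ^ 2) (huv : nf (u - v) = c ^ 2) (s t : ℝ → ℝ → ℝ)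
    (hx : ∀ x y, x = P.1 + (s x y * u.1 + t x y * v.1))
    (hy : ∀ x y, y = P.2 + (s x y * u.2 + t x y * v.2)) (k : ℕ) (hk : 0 < k) :
    TR (cpV a b c) {p | 0 ≤ s p.1 p.2 ∧ 0 ≤ t p.1 p.2 ∧ s p.1 p.2 + t p.1 p.2 ≤ 0 + 0 + k}
      (k ^ 2) := by
  rw [← frame_image h s t hx hy (fun s t => 0 ≤ s ∧ 0 ≤ t ∧ s + t ≤ 0 + 0 + k)]
  exact (grid_tri 0 0 k hk).map _ (frame_cp h hu hv huv)

/-- a parallelogram -/
lemma frame_para {a b c : ℝ} (P u v : ℝ × ℝ) (h : u.1 * v.2 - u.2 * v.1 ≠ 0)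
    (hu : nf u = a ^ 2) (hv : nf v = b ^ 2) (huv : nf (u - v) = c ^ 2) (s t : ℝ → ℝ → ℝ)
    (hx : ∀ x y, x = P.1 + (s x y * u.1 + t x y * v.1))
    (hy : ∀ x y, y = P.2 + (s x y * u.2 + t x y * v.2)) (p q : ℕ) (hp : 0 < p) (hq : 0 < q) :
    TR (cpV a b c) {z | 0 ≤ s z.1 z.2 ∧ s z.1 z.2 ≤ 0 + p ∧ 0 ≤ t z.1 z.2 ∧ t z.1 z.2 ≤ 0 + q}
      (2 * p * q) := by
  rw [← frame_image h s t hx hy (fun s t => 0 ≤ s ∧ s ≤ 0 + p ∧ 0 ≤ t ∧ t ≤ 0 + q)]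
  exact (grid_para 0 0 p q hp hq).map _ (frame_cp h hu hv huv)

end Q119.TL
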