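import Pool.Agent.Q119.TL.Frame

/-!
The trapezoid with legs `ab`, top `a² + b²`, bottom `c²` is a union of three triangles similar
to the tile with sides `a, b, c`; layers, stacks, pinwheel (helper119).
-/

namespace Q119.TL

open Set

section

variable (a b c : ℕ) (ha : 0 < a) (hb : 0 < b) (hc : 0 < c) (hl : c ^ 2 = a ^ 2 + b ^ 2 + a * b)

include ha hb hl

lemma reg_b : TR (cpV a b c)
    {p : ℝ × ℝ | 0 ≤ p.1 ∧ p.2 ≤ a * b ∧ a * p.1 ≤ b * p.2} (b ^ 2) := by
  have ha' : (0 : ℝ) < a := by exact_mod_cast ha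
  have hb' : (0 : ℝ) < b := by exact_mod_cast hb
  have hl' : (c : ℝ) ^ 2 = a ^ 2 + b ^ 2 + a * b := by exact_mod_cast hl
  have h := frame_tri (a := a) (b := b) (c := c) (0, (a : ℝ) * b) (0, -(a : ℝ)) ((b : ℝ), 0)
    (by simp; exact ⟨ha.ne', hb.ne'⟩) (by simp [nf]) (by simp [nf])
    (by simp [nf]; rw [hl']; ring)
    (fun x y => (a * b - y) / a) (fun x y => x / b)
    (by intro x y; simp; field_simp) (by intro x y; simp; field_simp; ring) b hb
  convert h using 1
  ext ⟨x, y⟩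
  simp only [mem_ofPred_eq]
  have e : (a * b - y) / a + x / b - b = (a * x - b * y) / (a * b) := by field_simp; ring
  constructor
  · rintro ⟨h1, h2, h3⟩
    refine ⟨div_nonneg (by linarith) ha'.le, div_nonneg h1 hb'.le, ?_⟩
    have : (a * x - b * y) / (a * b) ≤ 0 :=
      div_nonpos_of_nonpos_of_nonneg (by linarith) (by positivity)
    linarith
  · rintro ⟨h1, h2, h3⟩
    have h1' : 0 ≤ (a : ℝ) * b - y := by
      have := mul_nonneg h1 ha'.le
      rwa [div_mul_cancel₀ _ ha'.ne'] at this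
    have h2' : 0 ≤ x := by
      have := mul_nonneg h2 hb'.le
      rwa [div_mul_cancel₀ _ hb'.ne'] at this
    have h3' : (a * x - b * y) / (a * b) ≤ 0 := by linarith
    have h3'' : a * x - b * y ≤ 0 := by
      by_contra hcon
      have : 0 < (a * x - b * y) / ((a : ℝ) * b) := div_pos (by linarith) (by positivity)
      linarith
    exact ⟨h2', by linarith, by linarith⟩

lemma reg_a : TR (cpV a b c)
    {p : ℝ × ℝ | p.1 + p.2 ≤ c ^ 2 ∧ p.2 ≤ a * b ∧ b * c ^ 2 ≤ b * p.1 + (a + b) * p.2}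
      (a ^ 2) := by
  have ha' : (0 : ℝ) < a := by exact_mod_cast ha
  have hb' : (0 : ℝ) < b := by exact_mod_cast hb
  have hl' : (c : ℝ) ^ 2 = a ^ 2 + b ^ 2 + a * b := by exact_mod_cast hl
  have h := frame_tri (a := a) (b := b) (c := c) ((a : ℝ) ^ 2 + b ^ 2, (a : ℝ) * b)
    (-(a : ℝ), 0) ((b : ℝ), -(b : ℝ))
    (by simp; exact ⟨ha.ne', hb.ne'⟩) (by simp [nf]) (by simp [nf]; ring)
    (by simp [nf]; rw [hl']; ring)
    (fun x y => (c ^ 2 - x - y) / a) (fun x y => (a * b - y) / b)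
    (by intro x y; simp; field_simp; rw [hl']; ring) (by intro x y; simp; field_simp; ring) a ha
  convert h using 1
  ext ⟨x, y⟩
  simp only [mem_ofPred_eq]
  have e : ((c : ℝ) ^ 2 - x - y) / a + (a * b - y) / b - a =
      (b * c ^ 2 - (b * x + (a + b) * y)) / (a * b) := by field_simp; ring
  constructor
  · rintro ⟨h1, h2, h3⟩
    refine ⟨div_nonneg (by linarith) ha'.le, div_nonneg (by linarith) hb'.le, ?_⟩
    have : (b * (c : ℝ) ^ 2 - (b * x + (a + b) * y)) / (a * b) ≤ 0 :=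
      div_nonpos_of_nonpos_of_nonneg (by linarith) (by positivity)
    linarith
  · rintro ⟨h1, h2, h3⟩
    have h1' : 0 ≤ (c : ℝ) ^ 2 - x - y := by
      have := mul_nonneg h1 ha'.le
      rwa [div_mul_cancel₀ _ ha'.ne'] at this
    have h2' : 0 ≤ (a : ℝ) * b - y := by
      have := mul_nonneg h2 hb'.le
      rwa [div_mul_cancel₀ _ hb'.ne'] at this
    have h3' : (b * (c : ℝ) ^ 2 - (b * x + (a + b) * y)) / (a * b) ≤ 0 := by linarith
    have h3'' : b * (c : ℝ) ^ 2 - (b * x + (a + b) * y) ≤ 0 := by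
      by_contra hcon
      have : 0 < (b * (c : ℝ) ^ 2 - (b * x + (a + b) * y)) / ((a : ℝ) * b) :=
        div_pos (by linarith) (by positivity)
      linarith
    exact ⟨by linarith, by linarith, by linarith⟩

include hc in
lemma reg_c : TR (cpV a b c)
    {p : ℝ × ℝ | 0 ≤ p.2 ∧ b * p.2 ≤ a * p.1 ∧ b * p.1 + (a + b) * p.2 ≤ b * c ^ 2}
      (c ^ 2) := by
  have ha' : (0 : ℝ) < a := by exact_mod_cast ha
  have hb' : (0 : ℝ) < b := by exact_mod_cast hb
  have hc' : (0 : ℝ) < c := by exact_mod_cast hc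
  have hl' : (c : ℝ) ^ 2 = a ^ 2 + b ^ 2 + a * b := by exact_mod_cast hl
  have h := frame_tri (a := a) (b := b) (c := c) ((b : ℝ) ^ 2, (a : ℝ) * b)
    (((a : ℝ) ^ 2 + a * b) / c, -(a * b / c)) (-((b : ℝ) ^ 2 / c), -(a * b / c))
    (by
      simp only
      have : ((a : ℝ) ^ 2 + a * b) / c * -(a * b / c) - -(a * b / c) * -((b : ℝ) ^ 2 / c) =
        -(a * b) := by
        field_simp
        rw [hl']; ring
      rw [this]
      exact neg_ne_zero.2 (by positivity))
    (by simp only [nf]; field_simp; rw [hl']; ring) (by simp only [nf]; field_simp; rw [hl']; ring)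
    (by
      simp only [nf, Prod.fst_sub, Prod.snd_sub]
      have e1 : ((a : ℝ) ^ 2 + a * b) / c - -((b : ℝ) ^ 2 / c) = c := by
        field_simp; rw [hl']; ring
      have e2 : -(a * b / c) - -(a * b / c : ℝ) = 0 := by ring
      rw [e1, e2]; ring)
    (fun x y => (a * x - b * y) / (a * c))
    (fun x y => (b * c ^ 2 - (a + b) * y - b * x) / (b * c))
    (by intro x y; simp only; field_simp; rw [hl']; ring)
    (by intro x y; simp only; field_simp; rw [hl']; ring) c hc
  convert h using 1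
  ext ⟨x, y⟩
  simp only [mem_ofPred_eq]
  have hac : (0 : ℝ) < a * c := by positivity
  have hbc : (0 : ℝ) < b * c := by positivity
  have e : (a * x - b * y) / (a * c) + (b * (c : ℝ) ^ 2 - (a + b) * y - b * x) / (b * c) - c =
      -(c * y) / (a * b) := by
    field_simp; rw [hl']; ring
  constructor
  · rintro ⟨h1, h2, h3⟩
    refine ⟨div_nonneg (by linarith) hac.le, div_nonneg (by linarith) hbc.le, ?_⟩
    have : -(c * y) / ((a : ℝ) * b) ≤ 0 :=
      div_nonpos_of_nonpos_of_nonneg (by nlinarith) (by positivity)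
    linarith
  · rintro ⟨h1, h2, h3⟩
    have h1' : 0 ≤ a * x - b * y := by
      have := mul_nonneg h1 hac.le
      rwa [div_mul_cancel₀ _ hac.ne'] at this
    have h2' : 0 ≤ b * (c : ℝ) ^ 2 - (a + b) * y - b * x := by
      have := mul_nonneg h2 hbc.le
      rwa [div_mul_cancel₀ _ hbc.ne'] at this
    have h3' : -(c * y) / ((a : ℝ) * b) ≤ 0 := by linarith
    have h3'' : 0 ≤ y := by
      by_contra hcon
      have : 0 < -(c * y) / ((a : ℝ) * b) :=
        div_pos (by nlinarith) (by positivity)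
      linarith
    exact ⟨by linarith, by linarith, by linarith⟩

/-- parallelogram, `n` times `a` wide and `ab` high -/
lemma reg_p1 (n : ℕ) (hn : 0 < n) (e : ℝ) : TR (cpV a b c)
    {p : ℝ × ℝ | 0 ≤ p.2 ∧ p.2 ≤ a * b ∧ e ≤ p.1 + p.2 ∧ p.1 + p.2 ≤ e + n * a}
      (2 * n * a) := by
  have ha' : (0 : ℝ) < a := by exact_mod_cast ha
  have hb' : (0 : ℝ) < b := by exact_mod_cast hb
  have hl' : (c : ℝ) ^ 2 = a ^ 2 + b ^ 2 + a * b := by exact_mod_cast hl
  have h := frame_para (a := a) (b := b) (c := c) (e, 0)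
    ((a : ℝ), 0) (-(b : ℝ), (b : ℝ))
    (by simp; exact ⟨ha.ne', hb.ne'⟩) (by simp [nf]) (by simp [nf]; ring)
    (by simp [nf]; rw [hl']; ring)
    (fun x y => (x + y - e) / a) (fun x y => y / b)
    (by intro x y; simp; field_simp; ring) (by intro x y; simp; field_simp) n a hn ha
  convert h using 1
  ext ⟨x, y⟩
  simp only [mem_ofPred_eq, zero_add]
  rw [div_le_iff₀ ha', div_le_iff₀ hb', div_nonneg_iff, div_nonneg_iff]
  constructor
  · rintro ⟨h1, h2, h3, h4⟩
    exact ⟨Or.inl ⟨by linarith, ha'.le⟩, by linarith, Or.inl ⟨h1, hb'.le⟩, by linarith⟩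
  · rintro ⟨h1, h2, h3, h4⟩
    have h1' : 0 ≤ x + y - e := by
      rcases h1 with h | h
      · exact h.1
      · linarith [h.2]
    have h3' : 0 ≤ y := by
      rcases h3 with h | h
      · exact h.1
      · linarith [h.2]
    exact ⟨h3', by linarith, by linarith, by linarith⟩

/-- parallelogram, `n` times `b` wide and `ab` high -/
lemma reg_p2 (n : ℕ) (hn : 0 < n) (e : ℝ) : TR (cpV a b c)
    {p : ℝ × ℝ | 0 ≤ p.2 ∧ p.2 ≤ a * b ∧ e ≤ p.1 + p.2 ∧ p.1 + p.2 ≤ e + n * b}
      (2 * b * n) := by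
  have ha' : (0 : ℝ) < a := by exact_mod_cast ha
  have hb' : (0 : ℝ) < b := by exact_mod_cast hb
  have hl' : (c : ℝ) ^ 2 = a ^ 2 + b ^ 2 + a * b := by exact_mod_cast hl
  have h := frame_para (a := a) (b := b) (c := c) (e, 0)
    (-(a : ℝ), (a : ℝ)) ((b : ℝ), 0)
    (by simp; exact ⟨ha.ne', hb.ne'⟩) (by simp [nf]; ring) (by simp [nf])
    (by simp [nf]; rw [hl']; ring)
    (fun x y => y / a) (fun x y => (x + y - e) / b)
    (by intro x y; simp; field_simp; ring) (by intro x y; simp; field_simp) b n hb hn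
  convert h using 1
  ext ⟨x, y⟩
  simp only [mem_ofPred_eq, zero_add]
  rw [div_le_iff₀ ha', div_le_iff₀ hb', div_nonneg_iff, div_nonneg_iff]
  constructor
  · rintro ⟨h1, h2, h3, h4⟩
    exact ⟨Or.inl ⟨h1, ha'.le⟩, by linarith, Or.inl ⟨by linarith, hb'.le⟩, by linarith⟩
  · rintro ⟨h1, h2, h3, h4⟩
    have h1' : 0 ≤ x + y - e := by
      rcases h3 with h | h
      · exact h.1
      · linarith [h.2]
    have h3' : 0 ≤ y := by
      rcases h1 with h | h
      · exact h.1
      · linarith [h.2]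
    exact ⟨h3', by linarith, by linarith, by linarith⟩

include hc in
/-- the trapezoid with legs `ab`, top `a² + b²`, bottom `c²` -/
lemma trap1 : TR (cpV a b c)
    {p : ℝ × ℝ | 0 ≤ p.1 ∧ 0 ≤ p.2 ∧ p.2 ≤ a * b ∧ p.1 + p.2 ≤ c ^ 2}
      (a ^ 2 + b ^ 2 + c ^ 2) := by
  have ha' : (0 : ℝ) < a := by exact_mod_cast ha
  have hb' : (0 : ℝ) < b := by exact_mod_cast hb
  have hc' : (0 : ℝ) < c := by exact_mod_cast hc
  have hl' : (c : ℝ) ^ 2 = a ^ 2 + b ^ 2 + a * b := by exact_mod_cast hl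
  have key : ∀ x y : ℝ, 0 ≤ x → y ≤ a * b → a * x ≤ b * y →
      b * x + (a + b) * y ≤ b * c ^ 2 := by
    intro x y h1 h2 h3
    have h4 : a * (b * x + (a + b) * y) ≤ a * (b * c ^ 2) := by
      have h5 : a * (b * x + (a + b) * y) ≤ c ^ 2 * y := by
        rw [hl']
        nlinarith
      have h6 : (c : ℝ) ^ 2 * y ≤ c ^ 2 * (a * b) := by
        apply mul_le_mul_of_nonneg_left h2 (by positivity)
      linarith
    exact le_of_mul_le_mul_left h4 ha'
  have h1 := (reg_b a b c ha hb hl).union (reg_c a b c ha hb hc hl)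
    (sep_of (a : ℝ) (-(b : ℝ)) 0 (by rintro ⟨h, _⟩; exact ha'.ne' h)
      (by rintro x y ⟨_, _, h⟩; simp only at h; linarith)
      (by rintro x y ⟨_, h, _⟩; simp only at h; linarith))
  have h2 := h1.union (reg_a a b c ha hb hl)
    (sep_of (b : ℝ) ((a : ℝ) + b) (b * c ^ 2) (by rintro ⟨h, _⟩; exact hb'.ne' h)
      (by
        rintro x y (⟨h1, h2, h3⟩ | ⟨_, _, h⟩)
        · exact key x y h1 h2 h3
        · exact h)
      (by rintro x y ⟨_, _, h⟩; exact h))
  rw [show a ^ 2 + b ^ 2 + c ^ 2 = b ^ 2 + c ^ 2 + a ^ 2 by ring]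
  convert h2 using 1
  ext ⟨x, y⟩
  simp only [mem_ofPred_eq, mem_union]
  constructor
  · rintro ⟨h1, h2, h3, h4⟩
    rcases le_total (a * x) (b * y) with h | h
    · exact Or.inl (Or.inl ⟨h1, h3, h⟩)
    · rcases le_total (b * x + (a + b) * y) (b * (c : ℝ) ^ 2) with h' | h'
      · exact Or.inl (Or.inr ⟨h2, h, h'⟩)
      · exact Or.inr ⟨h4, h3, h'⟩
  · rintro ((⟨h1, h2, h3⟩ | ⟨h1, h2, h3⟩) | ⟨h1, h2, h3⟩)
    · have hy : 0 ≤ y := by
        have : 0 ≤ b * y := le_trans (by positivity) h3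
        exact nonneg_of_mul_nonneg_right this hb'
      refine ⟨h1, hy, h2, ?_⟩
      have := key x y h1 h2 h3
      have h4 : b * (x + y) ≤ b * c ^ 2 := by nlinarith
      exact le_of_mul_le_mul_left h4 hb'
    · have hx : 0 ≤ x := by
        have : 0 ≤ a * x := le_trans (by positivity) h2
        exact nonneg_of_mul_nonneg_right this ha'
      refine ⟨hx, h1, ?_, ?_⟩
      · have h4 : c ^ 2 * y ≤ c ^ 2 * (a * b) := by
          have : a * (b * x + (a + b) * y) ≤ a * (b * c ^ 2) :=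
            mul_le_mul_of_nonneg_left h3 ha'.le
          rw [hl'] at this ⊢
          nlinarith
        exact le_of_mul_le_mul_left h4 (by positivity)
      · have h4 : b * (x + y) ≤ b * c ^ 2 := by nlinarith
        exact le_of_mul_le_mul_left h4 hb'
    · have h4 : a * b * y ≤ a * b * (a * b) := mul_le_mul_of_nonneg_left h2 (by positivity)
      have hy : 0 ≤ y := by
        have : 0 ≤ a * y := by nlinarith
        exact nonneg_of_mul_nonneg_right this ha'
      refine ⟨?_, hy, h2, h1⟩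
      have h5 : 0 ≤ b * x := by
        rw [hl'] at h3
        nlinarith
      exact nonneg_of_mul_nonneg_right h5 hb'

end

end Q119.TL
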