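import Pool.Agent.Q119.TL.Basic

/-!
Triangles and parallelograms cut along a grid (helper119).
-/

namespace Q119.TL

open Set

/-- unit triangles of the standard grid: `C` is the corner, `B = C ± e₁`, `A = C ± e₂` -/
def cp0 (A B C : ℝ × ℝ) : Prop :=
  (A = (C.1, C.2 + 1) ∧ B = (C.1 + 1, C.2)) ∨ (A = (C.1, C.2 - 1) ∧ B = (C.1 - 1, C.2))

lemma mem_tri {E : Type*} [AddCommGroup E] [Module ℝ E] (A B C z : E) : z ∈ tri A B C ↔
    ∃ s t w : ℝ, 0 ≤ s ∧ 0 ≤ t ∧ 0 ≤ w ∧ s + t + w = 1 ∧ z = s • A + t • B + w • C := by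
  unfold tri
  rw [convexHull_insert (by simp), convexHull_pair]
  simp only [convexJoin_singleton_left, mem_iUnion, exists_prop]
  constructor
  · rintro ⟨u, ⟨p, q, hp, hq, hpq, rfl⟩, ⟨r, s, hr, hs, hrs, rfl⟩⟩
    refine ⟨r, s * p, s * q, hr, by positivity, by positivity, ?_, ?_⟩
    · have : s * p + s * q = s := by rw [← mul_add, hpq, mul_one]
      linarith
    · simp only [smul_add, smul_smul]
      abel
  · rintro ⟨x, y, w, hx, hy, hw, h1, h2⟩
    by_cases h0 : y + w = 0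
    · have hy0 : y = 0 := by linarith
      have hw0 : w = 0 := by linarith
      subst hy0 hw0
      refine ⟨B, left_mem_segment _ _ _, ⟨1, 0, by norm_num, le_rfl, by norm_num, ?_⟩⟩
      have : x = 1 := by linarith
      rw [h2, this]
      simp
    · have hpos : 0 < y + w := lt_of_le_of_ne (by positivity) (Ne.symm h0)
      refine ⟨(y / (y + w)) • B + (w / (y + w)) • C,
        ⟨y / (y + w), w / (y + w), by positivity, by positivity, by field_simp, rfl⟩,
        ⟨x, y + w, hx, hpos.le, by linarith, ?_⟩⟩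
      rw [h2, smul_add, smul_smul, smul_smul, mul_div_cancel₀ _ h0, mul_div_cancel₀ _ h0]
      abel

lemma tri_up (i j : ℝ) : tri ((i, j + 1) : ℝ × ℝ) (i + 1, j) (i, j) =
    {p | i ≤ p.1 ∧ j ≤ p.2 ∧ p.1 + p.2 ≤ i + j + 1} := by
  ext ⟨x, y⟩
  rw [mem_tri]
  simp only [mem_ofPred_eq, Prod.smul_mk, Prod.mk_add_mk, Prod.mk.injEq, smul_eq_mul]
  constructor
  · rintro ⟨s, t, w, hs, ht, hw, h1, h2, h3⟩
    have e1 : x = i + t := by rw [h2]; linear_combination i * h1
    have e2 : y = j + s := by rw [h3]; linear_combination j * h1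
    refine ⟨by linarith, by linarith, by linarith⟩
  · rintro ⟨h1, h2, h3⟩
    refine ⟨y - j, x - i, 1 - (y - j) - (x - i), by linarith, by linarith, by linarith, by ring,
      by ring, by ring⟩

lemma tri_down (i j : ℝ) : tri ((i, j - 1) : ℝ × ℝ) (i - 1, j) (i, j) =
    {p | p.1 ≤ i ∧ p.2 ≤ j ∧ i + j - 1 ≤ p.1 + p.2} := by
  ext ⟨x, y⟩
  rw [mem_tri]
  simp only [mem_ofPred_eq, Prod.smul_mk, Prod.mk_add_mk, Prod.mk.injEq, smul_eq_mul]
  constructor
  · rintro ⟨s, t, w, hs, ht, hw, h1, h2, h3⟩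
    have e1 : x = i - t := by rw [h2]; linear_combination i * h1
    have e2 : y = j - s := by rw [h3]; linear_combination j * h1
    refine ⟨by linarith, by linarith, by linarith⟩
  · rintro ⟨h1, h2, h3⟩
    refine ⟨j - y, i - x, 1 - (j - y) - (i - x), by linarith, by linarith, by linarith, by ring,
      by ring, by ring⟩

/-- separation in the plane by the line `α x + β y = κ` -/
lemma sep_of (α β κ : ℝ) (h : ¬ (α = 0 ∧ β = 0)) {S T : Set (ℝ × ℝ)}
    (h1 : ∀ x y : ℝ, (x, y) ∈ S → α * x + β * y ≤ κ)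
    (h2 : ∀ x y : ℝ, (x, y) ∈ T → κ ≤ α * x + β * y) : Sep S T := by
  refine ⟨α • LinearMap.fst ℝ ℝ ℝ + β • LinearMap.snd ℝ ℝ ℝ, κ, ?_, ?_, ?_⟩
  · intro h0
    apply h
    constructor
    · have := congrArg (fun k : ℝ × ℝ →ₗ[ℝ] ℝ => k (1, 0)) h0
      simpa using this
    · have := congrArg (fun k : ℝ × ℝ →ₗ[ℝ] ℝ => k (0, 1)) h0
      simpa using this
  · rintro ⟨x, y⟩ hx
    simpa using h1 x y hx
  · rintro ⟨x, y⟩ hx
    simpa using h2 x y hx

lemma grid_sq (i j : ℝ) :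
    TR cp0 {p : ℝ × ℝ | i ≤ p.1 ∧ p.1 ≤ i + 1 ∧ j ≤ p.2 ∧ p.2 ≤ j + 1} 2 := by
  have h1 : TR cp0 (tri ((i, j + 1) : ℝ × ℝ) (i + 1, j) (i, j)) 1 :=
    TR.single (Or.inl ⟨rfl, rfl⟩)
  have h2 : TR cp0 (tri ((i + 1, j + 1 - 1) : ℝ × ℝ) (i + 1 - 1, j + 1) (i + 1, j + 1)) 1 :=
    TR.single (Or.inr ⟨rfl, rfl⟩)
  rw [tri_up] at h1
  rw [tri_down] at h2
  have h := h1.union h2 (sep_of 1 1 (i + j + 1) (by norm_num)
    (by rintro x y ⟨_, _, h⟩; simpa using h)
    (by rintro x y ⟨_, _, h⟩; simp only at h; linarith))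
  convert h using 1
  ext ⟨x, y⟩
  simp only [mem_ofPred_eq, mem_union]
  constructor
  · rintro ⟨a1, a2, a3, a4⟩
    rcases le_total (x + y) (i + j + 1) with h | h
    · exact Or.inl ⟨a1, a3, h⟩
    · exact Or.inr ⟨a2, a4, by linarith⟩
  · rintro (⟨a1, a2, a3⟩ | ⟨a1, a2, a3⟩)
    · exact ⟨a1, by linarith, a2, by linarith⟩
    · exact ⟨by linarith, a1, by linarith, a2⟩

lemma grid_col (i j : ℝ) (q : ℕ) (hq : 0 < q) :
    TR cp0 {p : ℝ × ℝ | i ≤ p.1 ∧ p.1 ≤ i + 1 ∧ j ≤ p.2 ∧ p.2 ≤ j + q} (2 * q) := by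
  induction q, hq using Nat.le_induction with
  | base => simpa using grid_sq i j
  | succ q hq ih =>
    have h := ih.union (grid_sq i (j + q)) (sep_of 0 1 (j + q) (by norm_num)
      (by rintro x y ⟨_, _, _, h⟩; simp only at h; linarith)
      (by rintro x y ⟨_, _, h, _⟩; simp only at h; linarith))
    rw [show 2 * (q + 1) = 2 * q + 2 by ring]
    convert h using 1
    ext ⟨x, y⟩
    simp only [mem_ofPred_eq, mem_union]
    push_cast
    constructor
    · rintro ⟨a1, a2, a3, a4⟩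
      rcases le_total y (j + q) with h | h
      · exact Or.inl ⟨a1, a2, a3, h⟩
      · exact Or.inr ⟨a1, a2, h, by linarith⟩
    · have : (0 : ℝ) ≤ q := by positivity
      rintro (⟨a1, a2, a3, a4⟩ | ⟨a1, a2, a3, a4⟩)
      · exact ⟨a1, a2, a3, by linarith⟩
      · exact ⟨a1, a2, by linarith, by linarith⟩

/-- a grid parallelogram -/
lemma grid_para (i j : ℝ) (p q : ℕ) (hp : 0 < p) (hq : 0 < q) :
    TR cp0 {z : ℝ × ℝ | i ≤ z.1 ∧ z.1 ≤ i + p ∧ j ≤ z.2 ∧ z.2 ≤ j + q} (2 * p * q) := by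
  induction p, hp using Nat.le_induction with
  | base => simpa using grid_col i j q hq
  | succ p hp ih =>
    have h := ih.union (grid_col (i + p) j q hq) (sep_of 1 0 (i + p) (by norm_num)
      (by rintro x y ⟨_, h, _, _⟩; simp only at h; linarith)
      (by rintro x y ⟨h, _, _, _⟩; simp only at h; linarith))
    convert h using 1
    · ext ⟨x, y⟩
      simp only [mem_ofPred_eq, mem_union]
      push_cast
      constructor
      · rintro ⟨a1, a2, a3, a4⟩
        rcases le_total x (i + p) with h | h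
        · exact Or.inl ⟨a1, h, a3, a4⟩
        · exact Or.inr ⟨h, by linarith, a3, a4⟩
      · have : (0 : ℝ) ≤ p := by positivity
        rintro (⟨a1, a2, a3, a4⟩ | ⟨a1, a2, a3, a4⟩)
        · exact ⟨a1, by linarith, a3, a4⟩
        · exact ⟨by linarith, by linarith, a3, a4⟩
    · ring

/-- a big grid triangle -/
lemma grid_tri (i j : ℝ) (k : ℕ) (hk : 0 < k) :
    TR cp0 {z : ℝ × ℝ | i ≤ z.1 ∧ j ≤ z.2 ∧ z.1 + z.2 ≤ i + j + k} (k ^ 2) := by
  induction k, hk using Nat.le_induction generalizing j with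
  | base =>
    have h1 : TR cp0 (tri ((i, j + 1) : ℝ × ℝ) (i + 1, j) (i, j)) 1 :=
      TR.single (Or.inl ⟨rfl, rfl⟩)
    rw [tri_up] at h1
    simpa using h1
  | succ k hk ih =>
    have h1 : TR cp0 (tri ((i + k, j + 1) : ℝ × ℝ) (i + k + 1, j) (i + k, j)) 1 :=
      TR.single (Or.inl ⟨rfl, rfl⟩)
    rw [tri_up] at h1
    have h2 := (grid_para i j k 1 hk one_pos).union h1 (sep_of 1 0 (i + k) (by norm_num)
      (by rintro x y ⟨_, h, _, _⟩; simp only at h; linarith)
      (by rintro x y ⟨h, _, _⟩; simp only at h; linarith))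
    have h := h2.union (ih (j + 1)) (sep_of 0 1 (j + 1) (by norm_num)
      (by
        rintro x y (⟨_, _, _, h⟩ | ⟨h, _, h'⟩)
        · simp only at h; push_cast at h; linarith
        · simp only at h h'; linarith)
      (by rintro x y ⟨_, h, _⟩; simp only at h; linarith))
    convert h using 1
    · ext ⟨x, y⟩
      simp only [mem_ofPred_eq, mem_union]
      push_cast
      constructor
      · rintro ⟨a1, a2, a3⟩
        rcases le_total y (j + 1) with h | h
        · rcases le_total x (i + k) with h' | h'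
          · exact Or.inl (Or.inl ⟨a1, h', a2, h⟩)
          · exact Or.inl (Or.inr ⟨h', a2, by linarith⟩)
        · exact Or.inr ⟨a1, h, by linarith⟩
      · have : (0 : ℝ) ≤ k := by positivity
        rintro ((⟨a1, a2, a3, a4⟩ | ⟨a1, a2, a3⟩) | ⟨a1, a2, a3⟩)
        · exact ⟨a1, a3, by linarith⟩
        · exact ⟨by linarith, a2, by linarith⟩
        · exact ⟨a1, by linarith, by linarith⟩
    · ring

end Q119.TL
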