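import Pool.Agent.Q119.TL.Geom

/-!
Layers, stacks of layers, the pinwheel and equilateral triangles (helper119).
-/

namespace Q119.TL

open Set

/-- tileable, with area recorded (unit: equilateral triangle of side 1) -/
def TA (a b c : ℕ) (R : Set (ℝ × ℝ)) (S : ℝ) : Prop :=
  ∃ N : ℕ, TR (cpV a b c) R N ∧ (N : ℝ) * (a * b) = S

lemma TA.union {a b c : ℕ} {R S : Set (ℝ × ℝ)} {x y : ℝ} (hR : TA a b c R x)
    (hS : TA a b c S y) (h : Sep R S) : TA a b c (R ∪ S) (x + y) := by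
  obtain ⟨M, h1, h2⟩ := hR
  obtain ⟨N, h3, h4⟩ := hS
  exact ⟨M + N, h1.union h3 h, by push_cast; rw [← h2, ← h4]; ring⟩

lemma TA.union3 {a b c : ℕ} {R S T : Set (ℝ × ℝ)} {x y z : ℝ} (hR : TA a b c R x)
    (hS : TA a b c S y) (hT : TA a b c T z) (h : Sep R S) (h' : Sep R T) (h'' : Sep S T) :
    TA a b c (R ∪ S ∪ T) (x + y + z) := by
  obtain ⟨M, h1, h2⟩ := hR
  obtain ⟨N, h3, h4⟩ := hS
  obtain ⟨K, h5, h6⟩ := hT
  exact ⟨M + N + K, h1.union3 h3 h5 h h' h'', by push_cast; rw [← h2, ← h4, ← h6]; ring⟩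

lemma cpV_shift {a b c : ℝ} (d : ℝ × ℝ) (A B C : ℝ × ℝ) (h : cpV a b c A B C) :
    cpV a b c (AffineEquiv.constVAdd ℝ (ℝ × ℝ) d A) (AffineEquiv.constVAdd ℝ (ℝ × ℝ) d B)
      (AffineEquiv.constVAdd ℝ (ℝ × ℝ) d C) := by
  simpa [cpV] using h

lemma TA.shift {a b c : ℕ} {R : Set (ℝ × ℝ)} {x : ℝ} (hR : TA a b c R x) (d : ℝ) :
    TA a b c {p | (p.1, p.2 - d) ∈ R} x := by
  obtain ⟨N, h1, h2⟩ := hR
  refine ⟨N, ?_, h2⟩
  have := h1.map (AffineEquiv.constVAdd ℝ (ℝ × ℝ) (0, d)) (cpV_shift (0, d))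
  convert this using 1
  ext ⟨x, y⟩
  simp only [mem_ofPred_eq, mem_image]
  constructor
  · intro h
    exact ⟨(x, y - d), h, by simp⟩
  · rintro ⟨⟨u, v⟩, h, h'⟩
    have h' : (0 + u, d + v) = (x, y) := h'
    rw [Prod.mk.injEq] at h'
    obtain ⟨e1, e2⟩ := h'
    have e3 : x = u := by linarith
    have e4 : y - d = v := by linarith
    rw [e3, e4]
    exact h

/-- rotation by 120 degrees about the centre of the triangle of side `L` -/
lemma TA.rot {a b c : ℕ} {Q : ℝ → ℝ → Prop} {x : ℝ} (hR : TA a b c {p | Q p.1 p.2} x) (L : ℝ) :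
    TA a b c {p | Q p.2 (L - p.1 - p.2)} x := by
  obtain ⟨N, h1, h2⟩ := hR
  refine ⟨N, ?_, h2⟩
  have hdet : ((-1, 1) : ℝ × ℝ).1 * ((-1, 0) : ℝ × ℝ).2 -
      ((-1, 1) : ℝ × ℝ).2 * ((-1, 0) : ℝ × ℝ).1 ≠ 0 := by norm_num
  have h3 := h1.map (cp' := cpV a b c) (frameG (L, 0) (-1, 1) (-1, 0) hdet) (by
    rintro ⟨A1, A2⟩ ⟨B1, B2⟩ ⟨C1, C2⟩ ⟨e1, e2, e3⟩
    simp only [nf, Prod.fst_sub, Prod.snd_sub] at e1 e2 e3
    refine ⟨?_, ?_, ?_⟩
    · rw [← e1]; simp only [nf, frameG_apply, Prod.fst_sub, Prod.snd_sub]; ring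
    · rw [← e2]; simp only [nf, frameG_apply, Prod.fst_sub, Prod.snd_sub]; ring
    · rw [← e3]; simp only [nf, frameG_apply, Prod.fst_sub, Prod.snd_sub]; ring)
  rw [frame_image hdet (fun _ y => y) (fun x y => L - x - y) (by intro x y; ring)
    (by intro x y; ring) Q] at h3
  exact h3

section

variable (a b c : ℕ) (ha : 0 < a) (hb : 0 < b) (hc : 0 < c) (hl : c ^ 2 = a ^ 2 + b ^ 2 + a * b)

include ha hb hl hc

/-- one layer -/
lemma layer (n₁ n₂ : ℕ) (β : ℝ) (hβ : β = c ^ 2 + n₁ * a + n₂ * b) :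
    TA a b c {p | 0 ≤ p.1 ∧ 0 ≤ p.2 ∧ p.2 ≤ a * b ∧ p.1 + p.2 ≤ β}
      (β ^ 2 - (β - a * b) ^ 2) := by
  have ha' : (0 : ℝ) < a := by exact_mod_cast ha
  have hb' : (0 : ℝ) < b := by exact_mod_cast hb
  have hc' : (0 : ℝ) < c := by exact_mod_cast hc
  have hl' : (c : ℝ) ^ 2 = a ^ 2 + b ^ 2 + a * b := by exact_mod_cast hl
  have hab : (a : ℝ) * b ≤ c ^ 2 := by
    rw [hl']; linarith [sq_nonneg (a : ℝ), sq_nonneg (b : ℝ)]
  have h0 : TA a b c {p | 0 ≤ p.1 ∧ 0 ≤ p.2 ∧ p.2 ≤ a * b ∧ p.1 + p.2 ≤ c ^ 2}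
      ((c ^ 2) ^ 2 - (c ^ 2 - a * b) ^ 2) := by
    refine ⟨_, trap1 a b c ha hb hc hl, ?_⟩
    push_cast
    rw [hl']
    ring
  -- first parallelogram
  have h1 : TA a b c {p | 0 ≤ p.1 ∧ 0 ≤ p.2 ∧ p.2 ≤ a * b ∧ p.1 + p.2 ≤ c ^ 2 + n₁ * a}
      ((c ^ 2 + n₁ * a) ^ 2 - (c ^ 2 + n₁ * a - a * b) ^ 2) := by
    rcases Nat.eq_zero_or_pos n₁ with rfl | hn
    · simpa using h0
    · have hp : TA a b c {p : ℝ × ℝ | 0 ≤ p.2 ∧ p.2 ≤ a * b ∧ (c : ℝ) ^ 2 ≤ p.1 + p.2 ∧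
          p.1 + p.2 ≤ c ^ 2 + n₁ * a} (2 * n₁ * a * (a * b)) :=
        ⟨_, reg_p1 a b c ha hb hl n₁ hn (c ^ 2), by push_cast; ring⟩
      have h := h0.union hp (sep_of 1 1 (c ^ 2) (by norm_num)
        (by rintro x y ⟨_, _, _, h⟩; simp only at h; linarith)
        (by rintro x y ⟨_, _, h, _⟩; simp only at h; linarith))
      convert h using 1
      · ext ⟨x, y⟩
        simp only [mem_ofPred_eq, mem_union]
        constructor
        · rintro ⟨h1, h2, h3, h4⟩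
          rcases le_total (x + y) ((c : ℝ) ^ 2) with h | h
          · exact Or.inl ⟨h1, h2, h3, h⟩
          · exact Or.inr ⟨h2, h3, h, h4⟩
        · have : (0 : ℝ) ≤ n₁ * a := by positivity
          rintro (⟨h1, h2, h3, h4⟩ | ⟨h1, h2, h3, h4⟩)
          · exact ⟨h1, h2, h3, by linarith⟩
          · exact ⟨by linarith, h1, h2, h4⟩
      · ring
  rcases Nat.eq_zero_or_pos n₂ with rfl | hn
  · have : β = c ^ 2 + n₁ * a := by rw [hβ]; simp
    rw [this]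
    exact h1
  · have hp : TA a b c {p : ℝ × ℝ | 0 ≤ p.2 ∧ p.2 ≤ a * b ∧ (c : ℝ) ^ 2 + n₁ * a ≤ p.1 + p.2 ∧
        p.1 + p.2 ≤ c ^ 2 + n₁ * a + n₂ * b} (2 * b * n₂ * (a * b)) :=
      ⟨_, reg_p2 a b c ha hb hl n₂ hn (c ^ 2 + n₁ * a), by push_cast; ring⟩
    have h := h1.union hp (sep_of 1 1 (c ^ 2 + n₁ * a) (by norm_num)
      (by rintro x y ⟨_, _, _, h⟩; simp only at h; linarith)
      (by rintro x y ⟨_, _, h, _⟩; simp only at h; linarith))
    have hn1 : (0 : ℝ) ≤ n₁ * a := by positivity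
    have hn2 : (0 : ℝ) ≤ n₂ * b := by positivity
    convert h using 1
    · ext ⟨x, y⟩
      simp only [mem_ofPred_eq, mem_union]
      constructor
      · rintro ⟨h1, h2, h3, h4⟩
        rcases le_total (x + y) ((c : ℝ) ^ 2 + n₁ * a) with h | h
        · exact Or.inl ⟨h1, h2, h3, h⟩
        · exact Or.inr ⟨h2, h3, h, by linarith⟩
      · rintro (⟨h1, h2, h3, h4⟩ | ⟨h1, h2, h3, h4⟩)
        · exact ⟨h1, h2, h3, by linarith⟩
        · exact ⟨by linarith, h1, h2, by linarith⟩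
    · rw [hβ]; ring

/-- a stack of `h` layers -/
lemma stack (h : ℕ) (hh : 1 ≤ h) : ∀ (n₁ n₂ : ℕ) (β : ℝ),
    β = (h - 1) * (a * b) + c ^ 2 + n₁ * a + n₂ * b →
    TA a b c {p | 0 ≤ p.1 ∧ 0 ≤ p.2 ∧ p.2 ≤ h * (a * b) ∧ p.1 + p.2 ≤ β}
      (β ^ 2 - (β - h * (a * b)) ^ 2) := by
  have hab : (0 : ℝ) < a * b := by
    have ha' : (0 : ℝ) < a := by exact_mod_cast ha
    have hb' : (0 : ℝ) < b := by exact_mod_cast hb
    positivity
  have hc' : (0 : ℝ) < (c : ℝ) ^ 2 := by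
    have hc' : (0 : ℝ) < c := by exact_mod_cast hc
    positivity
  induction h, hh using Nat.le_induction with
  | base =>
    intro n₁ n₂ β hβ
    have := layer a b c ha hb hc hl n₁ n₂ β (by rw [hβ]; simp)
    simpa using this
  | succ h hh ih =>
    intro n₁ n₂ β hβ
    have h1 := layer a b c ha hb hc hl (n₁ + h * b) n₂ β (by rw [hβ]; push_cast; ring)
    have h2 := (ih n₁ n₂ (β - a * b) (by rw [hβ]; push_cast; ring)).shift (a * b)
    have h3 := h1.union h2 (sep_of 0 1 (a * b) (by norm_num)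
      (by rintro x y ⟨_, _, h, _⟩; simp only at h; linarith)
      (by rintro x y ⟨_, h, _, _⟩; simp only at h; linarith))
    convert h3 using 1
    · ext ⟨x, y⟩
      simp only [mem_ofPred_eq, mem_union]
      push_cast
      constructor
      · rintro ⟨h1, h2, h3, h4⟩
        rcases le_total y (a * b) with h | h
        · exact Or.inl ⟨h1, h2, h, h4⟩
        · exact Or.inr ⟨h1, by linarith, by linarith, by linarith⟩
      · have : (0 : ℝ) ≤ h * (a * b) := by positivity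
        rintro (⟨h1, h2, h3, h4⟩ | ⟨h1, h2, h3, h4⟩)
        · exact ⟨h1, h2, by linarith, h4⟩
        · exact ⟨h1, by linarith, by linarith, by linarith⟩
    · push_cast; ring

/-- the pinwheel: the equilateral triangle of side `3(k+1)ab`, when `a ≤ b ≤ ka` -/
lemma pinwheel (k : ℕ) (hab : a ≤ b) (hk : b ≤ k * a) :
    TA a b c {p | 0 ≤ p.1 ∧ 0 ≤ p.2 ∧ p.1 + p.2 ≤ (3 * (k + 1) : ℕ) * ((a : ℝ) * b)}
      (((3 * (k + 1) : ℕ) * ((a : ℝ) * b)) ^ 2) := by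
  have hl' : (c : ℝ) ^ 2 = a ^ 2 + b ^ 2 + a * b := by exact_mod_cast hl
  obtain ⟨n₁, hn1⟩ := Nat.exists_eq_add_of_le hab
  obtain ⟨n₂, hn2⟩ := Nat.exists_eq_add_of_le hk
  have hn1' : (b : ℝ) = a + n₁ := by exact_mod_cast hn1
  have hn2' : (k : ℝ) * a = b + n₂ := by exact_mod_cast hn2
  have hpos : (0 : ℝ) < a * b := by
    have ha' : (0 : ℝ) < a := by exact_mod_cast ha
    have hb' : (0 : ℝ) < b := by exact_mod_cast hb
    positivity
  set Y : ℝ := (k + 1 : ℕ) * ((a : ℝ) * b) with hY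
  have hYpos : 0 < Y := by positivity
  have h1 := stack a b c ha hb hc hl (k + 1) (by omega) n₁ n₂ (2 * Y) (by
    rw [hY, hl']
    push_cast
    have e1 : (n₁ : ℝ) = b - a := by linarith
    have e2 : (n₂ : ℝ) = k * a - b := by linarith
    rw [e1, e2]
    ring)
  rw [← hY] at h1
  have h2 := h1.rot (Q := fun x y => 0 ≤ x ∧ 0 ≤ y ∧ y ≤ Y ∧ x + y ≤ 2 * Y) (3 * Y)
  have h3 := h2.rot (Q := fun x y => 0 ≤ y ∧ 0 ≤ 3 * Y - x - y ∧ 3 * Y - x - y ≤ Y ∧
    y + (3 * Y - x - y) ≤ 2 * Y) (3 * Y)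
  have h := h1.union3 h2 h3
    (sep_of 1 1 (2 * Y) (by norm_num)
      (by rintro x y ⟨_, _, _, h⟩; simp only at h; linarith)
      (by rintro x y ⟨_, _, h, _⟩; simp only at h; linarith))
    (sep_of 0 1 Y (by norm_num)
      (by rintro x y ⟨_, _, h, _⟩; simp only at h; linarith)
      (by rintro x y ⟨_, _, _, h⟩; simp only at h; linarith))
    (sep_of (-1) 0 (-Y) (by norm_num)
      (by rintro x y ⟨_, _, _, h⟩; simp only at h; linarith)
      (by rintro x y ⟨_, _, h, _⟩; simp only at h; linarith))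
  have e3 : ((3 * (k + 1) : ℕ) : ℝ) * ((a : ℝ) * b) = 3 * Y := by
    rw [hY]; push_cast; ring
  rw [e3]
  convert h using 1
  · ext ⟨x, y⟩
    simp only [mem_ofPred_eq, mem_union]
    push_cast
    constructor
    · rintro ⟨h1, h2, h3⟩
      rcases le_total y Y with h | h
      · rcases le_total (x + y) (2 * Y) with h' | h'
        · exact Or.inl (Or.inl ⟨h1, h2, h, h'⟩)
        · exact Or.inl (Or.inr ⟨h2, by linarith, by linarith, by linarith⟩)
      · rcases le_total x Y with h' | h'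
        · exact Or.inr ⟨by linarith, by linarith, by linarith, by linarith⟩
        · exact Or.inl (Or.inr ⟨h2, by linarith, by linarith, by linarith⟩)
    · rintro ((⟨h1, h2, h3, h4⟩ | ⟨h1, h2, h3, h4⟩) | ⟨h1, h2, h3, h4⟩)
      · exact ⟨h1, h2, by linarith⟩
      · exact ⟨by linarith, h1, by linarith⟩
      · exact ⟨by linarith, by linarith, by linarith⟩
  · ring

/-- equilateral triangles of side `m ab`, `m ≥ 3(k+1)`, `a ≤ b ≤ ka` -/
lemma equi (k : ℕ) (hab : a ≤ b) (hk : b ≤ k * a) (m : ℕ) (hm : 3 * (k + 1) ≤ m) :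
    TA a b c {p | 0 ≤ p.1 ∧ 0 ≤ p.2 ∧ p.1 + p.2 ≤ m * ((a : ℝ) * b)}
      ((m * ((a : ℝ) * b)) ^ 2) := by
  have hl' : (c : ℝ) ^ 2 = a ^ 2 + b ^ 2 + a * b := by exact_mod_cast hl
  have hpos : (0 : ℝ) < a * b := by
    have ha' : (0 : ℝ) < a := by exact_mod_cast ha
    have hb' : (0 : ℝ) < b := by exact_mod_cast hb
    positivity
  induction m, hm using Nat.le_induction with
  | base => exact pinwheel a b c ha hb hc hl k hab hk
  | succ m hm ih =>
    obtain ⟨n₁, hn1⟩ := Nat.exists_eq_add_of_le hab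
    obtain ⟨n₂, hn2⟩ := Nat.exists_eq_add_of_le hk
    have hn1' : (b : ℝ) = a + n₁ := by exact_mod_cast hn1
    have hn2' : (k : ℝ) * a = b + n₂ := by exact_mod_cast hn2
    obtain ⟨r, hr⟩ := Nat.exists_eq_add_of_le (show k + 1 ≤ m by omega)
    have hr' : (m : ℝ) = k + 1 + r := by exact_mod_cast hr
    have e1 : (n₁ : ℝ) = b - a := by linarith
    have e2 : (n₂ : ℝ) = k * a - b := by linarith
    have h1 := layer a b c ha hb hc hl (n₁ + r * b) n₂ ((m + 1 : ℕ) * ((a : ℝ) * b)) (by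
      push_cast
      rw [e1, e2, hr', hl']
      ring)
    have h2 := ih.shift (a * b)
    have h3 := h1.union h2 (sep_of 0 1 (a * b) (by norm_num)
      (by rintro x y ⟨_, _, h, _⟩; simp only at h; linarith)
      (by rintro x y ⟨_, h, _⟩; simp only at h; linarith))
    convert h3 using 1
    · ext ⟨x, y⟩
      simp only [mem_ofPred_eq, mem_union]
      push_cast
      constructor
      · rintro ⟨h1, h2, h3⟩
        rcases le_total y (a * b) with h | h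
        · exact Or.inl ⟨h1, h2, h, h3⟩
        · exact Or.inr ⟨h1, by linarith, by linarith⟩
      · rintro (⟨h1, h2, h3, h4⟩ | ⟨h1, h2, h3⟩)
        · exact ⟨h1, h2, h4⟩
        · exact ⟨h1, by linarith, by linarith⟩
    · push_cast; ring

end

end Q119.TL
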